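import Mathlib

/-!
Windows of harmonic sums: the primes dividing the numerators of the window sums of an interval
have a small product.
-/

namespace SM53

open Finset

/-- the numerator of the sum of `1/j` over `[u,v]` over the denominator `lcm(1..T)` -/
def Nw (T u v : ℕ) : ℕ := ∑ j ∈ Icc u v, Nat.lcmUpto T / j

lemma Nw_le {T u v : ℕ} (hu : 1 ≤ u) (hv : v ≤ T) : Nw T u v ≤ T * Nat.lcmUpto T := by
  unfold Nw
  calc ∑ j ∈ Icc u v, Nat.lcmUpto T / j ≤ ∑ j ∈ Icc u v, Nat.lcmUpto T :=
        sum_le_sum fun j _ => Nat.div_le_self _ _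
    _ = (Icc u v).card * Nat.lcmUpto T := by rw [sum_const, smul_eq_mul]
    _ ≤ T * Nat.lcmUpto T := by
        apply Nat.mul_le_mul_right
        rw [Nat.card_Icc]
        omega

lemma dvd_lcmUpto {T j : ℕ} (h1 : 1 ≤ j) (h2 : j ≤ T) : j ∣ Nat.lcmUpto T :=
  Finset.dvd_lcm (f := id) (mem_Icc.mpr ⟨h1, h2⟩)

lemma Nw_pos {T u v : ℕ} (hu : 1 ≤ u) (huv : u ≤ v) (hv : v ≤ T) : 0 < Nw T u v := by
  unfold Nw
  apply sum_pos
  · intro j hj
    rw [mem_Icc] at hj
    exact Nat.div_pos (Nat.le_of_dvd (Nat.lcmUpto_pos T) (dvd_lcmUpto (by omega) (by omega)))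
      (by omega)
  · exact ⟨u, mem_Icc.mpr ⟨le_rfl, huv⟩⟩

lemma le_ceil_mul {a p : ℕ} (hp : 1 ≤ p) : a ≤ (a + p - 1) / p * p := by
  have h := Nat.div_add_mod (a + p - 1) p
  have h2 := Nat.mod_lt (a + p - 1) (show 0 < p by omega)
  rw [Nat.mul_comm]
  omega

lemma ceil_anti {a p q : ℕ} (hp : 1 ≤ p) (hpq : p ≤ q) : (a + q - 1) / q ≤ (a + p - 1) / p := by
  have h1 := le_ceil_mul (a := a) hp
  have h2 : a ≤ (a + p - 1) / p * q := h1.trans (Nat.mul_le_mul_left _ hpq)
  have h3 : (a + q - 1) / q < (a + p - 1) / p + 1 := by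
    rw [Nat.div_lt_iff_lt_mul (by omega), Nat.add_mul, Nat.one_mul]
    omega
  omega

theorem exc_log (a b T : ℕ) (ha : 1 ≤ a) (E : Finset ℕ)
    (hE : ∀ p ∈ E, p.Prime ∧ b / p ≤ T ∧ (a + p - 1) / p ≤ b / p ∧
      p ∣ Nw T ((a + p - 1) / p) (b / p)) :
    ∑ p ∈ E, Real.log p ≤ 2 * T * (Chebyshev.psi T + Real.log T) := by
  classical
  have hu1 : ∀ p ∈ E, 1 ≤ (a + p - 1) / p := by
    intro p hp
    have hp1 := (hE p hp).1.one_lt
    rw [Nat.le_div_iff_mul_le (by omega)]
    omega
  rcases E.eq_empty_or_nonempty with rfl | ⟨p0, hp0⟩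
  · rw [sum_empty]
    have := Chebyshev.psi_nonneg (T : ℝ)
    have := Real.log_natCast_nonneg T
    positivity
  have hT1 : 1 ≤ T := by
    have h1 := hu1 p0 hp0
    have h2 := (hE p0 hp0).2
    omega
  let w : ℕ → ℕ × ℕ := fun p => ((a + p - 1) / p, b / p)
  have hmaps : ∀ p ∈ E, w p ∈ E.image w := fun p hp => mem_image_of_mem w hp
  rw [← sum_fiberwise_of_maps_to hmaps]
  have hfib : ∀ x ∈ E.image w, ∑ p ∈ E with w p = x, Real.log p ≤ Chebyshev.psi T + Real.log T := by
    intro x hx
    obtain ⟨q, hq, rfl⟩ := mem_image.mp hx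
    have hqE := hE q hq
    have hq1 := hu1 q hq
    have hdvd : (∏ p ∈ E with w p = w q, p) ∣ Nw T ((a + q - 1) / q) (b / q) := by
      apply Finset.prod_primes_dvd
      · intro p hp
        rw [mem_filter] at hp
        exact (hE p hp.1).1.prime
      · intro p hp
        rw [mem_filter] at hp
        have h := (hE p hp.1).2.2.2
        have e : w p = w q := hp.2
        have e1 : (a + p - 1) / p = (a + q - 1) / q := congrArg Prod.fst e
        have e2 : b / p = b / q := congrArg Prod.snd e
        rw [e1, e2] at h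
        exact h
    have hle := Nat.le_of_dvd (Nw_pos hq1 hqE.2.2.1 hqE.2.1) hdvd
    have hle2 := hle.trans (Nw_le hq1 hqE.2.1)
    have hlog : ∑ p ∈ E with w p = w q, Real.log p
        = Real.log ((∏ p ∈ E with w p = w q, p : ℕ) : ℝ) := by
      push_cast
      rw [Real.log_prod]
      intro p hp
      rw [mem_filter] at hp
      have := (hE p hp.1).1.pos
      positivity
    rw [hlog]
    have hpos : 0 < ∏ p ∈ E with w p = w q, p := by
      apply prod_pos
      intro p hp
      rw [mem_filter] at hp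
      exact (hE p hp.1).1.pos
    calc Real.log ((∏ p ∈ E with w p = w q, p : ℕ) : ℝ)
        ≤ Real.log ((T * Nat.lcmUpto T : ℕ) : ℝ) := by
          apply Real.log_le_log
          · exact_mod_cast hpos
          · exact_mod_cast hle2
      _ = Chebyshev.psi T + Real.log T := by
          rw [Chebyshev.psi_eq_log_lcmUpto]
          push_cast
          rw [Real.log_mul]
          · ring
          · have : (0 : ℝ) < T := by exact_mod_cast hT1
            exact this.ne'
          · have : (0 : ℝ) < Nat.lcmUpto T := by exact_mod_cast Nat.lcmUpto_pos T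
            exact this.ne'
  have hcard : (E.image w).card ≤ 2 * T := by
    have hinj : Set.InjOn (fun x : ℕ × ℕ => x.1 + x.2) (E.image w : Finset (ℕ × ℕ)) := by
      intro x hx y hy hxy
      rw [mem_coe, mem_image] at hx hy
      obtain ⟨p, hp, rfl⟩ := hx
      obtain ⟨q, hq, rfl⟩ := hy
      have hp1 := (hE p hp).1.one_lt
      have hq1 := (hE q hq).1.one_lt
      have hs : (a + p - 1) / p + b / p = (a + q - 1) / q + b / q := hxy
      have hgoal : (a + p - 1) / p = (a + q - 1) / q ∧ b / p = b / q := by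
        rcases le_total p q with h | h
        · have h1 := ceil_anti (a := a) (by omega : 1 ≤ p) h
          have h2 := Nat.div_le_div_left (a := b) h (by omega)
          omega
        · have h1 := ceil_anti (a := a) (by omega : 1 ≤ q) h
          have h2 := Nat.div_le_div_left (a := b) h (by omega)
          omega
      exact Prod.ext hgoal.1 hgoal.2
    have hsub : (E.image w).image (fun x : ℕ × ℕ => x.1 + x.2) ⊆ Icc 1 (2 * T) := by
      intro n hn
      rw [mem_image] at hn
      obtain ⟨x, hx, rfl⟩ := hn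
      obtain ⟨p, hp, rfl⟩ := mem_image.mp hx
      have h1 := hu1 p hp
      have h2 := (hE p hp).2
      rw [mem_Icc]
      refine ⟨?_, ?_⟩
      · change 1 ≤ (a + p - 1) / p + b / p
        omega
      · change (a + p - 1) / p + b / p ≤ 2 * T
        omega
    have h := card_le_card hsub
    rw [card_image_of_injOn hinj, Nat.card_Icc] at h
    omega
  calc ∑ x ∈ E.image w, ∑ p ∈ E with w p = x, Real.log p
      ≤ ∑ x ∈ E.image w, (Chebyshev.psi T + Real.log T) := sum_le_sum hfib
    _ = (E.image w).card * (Chebyshev.psi T + Real.log T) := by rw [sum_const, nsmul_eq_mul]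
    _ ≤ 2 * T * (Chebyshev.psi T + Real.log T) := by
        apply mul_le_mul_of_nonneg_right
        · exact_mod_cast hcard
        · exact add_nonneg (Chebyshev.psi_nonneg _) (Real.log_natCast_nonneg T)

/-- the same with a linear bound for the Chebyshev function -/
theorem exc_log_const (a b T : ℕ) (ha : 1 ≤ a) (E : Finset ℕ)
    (hE : ∀ p ∈ E, p.Prime ∧ b / p ≤ T ∧ (a + p - 1) / p ≤ b / p ∧
      p ∣ Nw T ((a + p - 1) / p) (b / p)) :
    ∑ p ∈ E, Real.log p ≤ 2 * (Real.log 4 + 5) * (T : ℝ) ^ 2 := by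
  have h1 := exc_log a b T ha E hE
  have h2 := Chebyshev.psi_le_const_mul_self (x := (T : ℝ)) (Nat.cast_nonneg T)
  have h3 : Real.log T ≤ T := by
    rcases Nat.eq_zero_or_pos T with h | h
    · simp [h]
    · have h4 : (0 : ℝ) < T := by exact_mod_cast h
      have := Real.log_le_sub_one_of_pos h4
      linarith
  have hT : (0 : ℝ) ≤ T := Nat.cast_nonneg T
  nlinarith

end SM53
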